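import Pool.Agent.H7.LP.Targets3

/-!
Row INQ of the board lpq_modules: codes and structures depend only on cosets.
-/

set_option autoImplicit false

open Set Filter Topology

namespace Pool.Agent.H90.LQ

open Pool.Agent.H93.CP Pool.Agent.H7.LP Pool.Agent.H7.LQ

section

variable {G X : Type} [Group G] [TopologicalSpace G] [IsTopologicalGroup G] [PolishSpace G]
  [MeasurableSpace G] [MeasurableSpace X] {B : Bs G} {L : LPD G} {M : Subgroup G}
  [MulAction M X] {Y : Hit M X}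

theorem kx_le (h1 : T_LBT) (h4 : T_KKA) (k m : ℕ) (x : X) (g : G) :
    KX B L Y k m x g ≤ L.H k := by
  obtain ⟨a, b, _, _⟩ := h1 G X L M Y k x g
  obtain ⟨_, c, _⟩ := h4 G B (L.R k) (L.H k) (lb L Y k x g) (L.piece k) a b
  intro u hu
  exact (c m hu).1

theorem one_way (h1 : T_LBT) (h3 : T_ADG) (h4 : T_KKA) (x : X) (k' m' k m : ℕ) (a b u v : G)
    (hu : u ∈ KX B L Y k' m' x a) (hv : v ∈ KX B L Y k m x b)
    (h : AdmA L k' (KX B L Y k' m' x a) k (KX B L Y k m x b) (a * b⁻¹)) :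
    AdmA L k' (KX B L Y k' m' x a) k (KX B L Y k m x b) (u * a * (v * b)⁻¹) ∧
      (a * b⁻¹)⁻¹ * (u * a * (v * b)⁻¹) ∈ KX B L Y k m x b := by
  have := h3 G L k' k _ _ (a * b⁻¹) u v⁻¹ (kx_le h1 h4 k' m' x a) (kx_le h1 h4 k m x b) h hu
    ((KX B L Y k m x b).inv_mem hv)
  have e : u * (a * b⁻¹) * v⁻¹ = u * a * (v * b)⁻¹ := by group
  rwa [e] at this

end

theorem pf_INQ (h1 : T_LBT) (h2 : T_NCO) (h3 : T_ADG) (h4 : T_KKA) : T_INQ := by
  intro G X _ _ _ _ _ _ B L M _ Y S x e e' hc he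
  obtain ⟨u, hu⟩ : ∃ u : ℕ → G, u = fun i => (e' i).2.2 * ((e i).2.2)⁻¹ := ⟨_, rfl⟩
  have hu1 : ∀ i, u i ∈ KX B L Y (e i).1 (e i).2.1 x (e i).2.2 := by
    intro i
    rw [hu]
    exact (he i).2.2
  have he' : ∀ i, e' i = ((e i).1, (e i).2.1, u i * (e i).2.2) := by
    intro i
    refine Prod.ext (he i).1 (Prod.ext (he i).2.1 ?_)
    rw [hu]
    simp
  have hl : ∀ i, lb L Y (e i).1 x (u i * (e i).2.2) = lb L Y (e i).1 x (e i).2.2 := fun i =>
    (h2 G X B L M Y S (e i).1 (e i).2.1 x (e i).2.2 (u i) (hu1 i)).1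
  have hK : ∀ i, KX B L Y (e i).1 (e i).2.1 x (u i * (e i).2.2) =
      KX B L Y (e i).1 (e i).2.1 x (e i).2.2 := fun i =>
    (h2 G X B L M Y S (e i).1 (e i).2.1 x (e i).2.2 (u i) (hu1 i)).2.1
  have hN : ∀ i, Nd B S x ((e i).1, (e i).2.1, u i * (e i).2.2) ↔
      Nd B S x ((e i).1, (e i).2.1, (e i).2.2) := fun i =>
    (h2 G X B L M Y S (e i).1 (e i).2.1 x (e i).2.2 (u i) (hu1 i)).2.2
  -- the order
  have hle : ∀ i j, Le B L Y x (e' i) (e' j) ↔ Le B L Y x (e i) (e j) := by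
    intro i j
    unfold Le
    rw [he' i, he' j]
    dsimp only
    rw [hK i, hK j]
    constructor
    · intro h
      have h5 : AdmA L (e i).1 (KX B L Y (e i).1 (e i).2.1 x (u i * (e i).2.2)) (e j).1
          (KX B L Y (e j).1 (e j).2.1 x (u j * (e j).2.2))
          (u i * (e i).2.2 * (u j * (e j).2.2)⁻¹) := by
        rw [hK i, hK j]
        exact h
      have h6 := (one_way h1 h3 h4 x (e i).1 (e i).2.1 (e j).1 (e j).2.1 _ _ (u i)⁻¹ (u j)⁻¹
        (by rw [hK i]; exact Subgroup.inv_mem _ (hu1 i))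
        (by rw [hK j]; exact Subgroup.inv_mem _ (hu1 j)) h5).1
      rw [hK i, hK j, inv_mul_cancel_left, inv_mul_cancel_left] at h6
      exact h6
    · intro h
      exact (one_way h1 h3 h4 x (e i).1 (e i).2.1 (e j).1 (e j).2.1 _ _ (u i) (u j)
        (hu1 i) (hu1 j) h).1
  constructor
  · constructor
    · intro i
      rw [he' i]
      exact (hN i).2 (hc.node i)
    · intro k m g hg N
      obtain ⟨i, hi, hk, hm, hgi⟩ := hc.all k m g hg N
      refine ⟨i, hi, ?_, ?_, ?_⟩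
      · rw [he' i]
        exact hk
      · rw [he' i]
        exact hm
      · rw [he' i]
        dsimp only
        subst hk
        subst hm
        rw [hK i]
        have e1 : g * (u i * (e i).2.2)⁻¹ = g * ((e i).2.2)⁻¹ * (u i)⁻¹ := by group
        rw [e1]
        exact Subgroup.mul_mem _ hgi (Subgroup.inv_mem _ (hu1 i))
  · intro w hw
    refine ⟨?_, ?_, ?_, ?_, ?_⟩
    · intro i
      rw [hw.k i, he' i]
    · intro i
      rw [hw.m i, he' i]
    · intro i
      rw [he' i]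
      dsimp only
      rw [hl i]
      exact hw.y i
    · intro i j
      rw [hw.le i j, hle i j]
    · intro i j p
      rw [hw.q i j p, hle i j]
      refine and_congr_right fun h => ?_
      obtain ⟨_, h6⟩ := one_way h1 h3 h4 x (e i).1 (e i).2.1 (e j).1 (e j).2.1 _ _ (u i) (u j)
        (hu1 i) (hu1 j) h
      rw [he' i, he' j]
      dsimp only
      rw [hK j]
      constructor
      · rintro ⟨t, ht, ht'⟩
        refine ⟨(((e i).2.2 * ((e j).2.2)⁻¹)⁻¹ * (u i * (e i).2.2 * (u j * (e j).2.2)⁻¹))⁻¹ * t,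
          Subgroup.mul_mem _ (Subgroup.inv_mem _ h6) ht, ?_⟩
        have e1 : u i * (e i).2.2 * (u j * (e j).2.2)⁻¹ *
            ((((e i).2.2 * ((e j).2.2)⁻¹)⁻¹ * (u i * (e i).2.2 * (u j * (e j).2.2)⁻¹))⁻¹ * t) =
            (e i).2.2 * ((e j).2.2)⁻¹ * t := by group
        rw [e1]
        exact ht'
      · rintro ⟨t, ht, ht'⟩
        refine ⟨(((e i).2.2 * ((e j).2.2)⁻¹)⁻¹ * (u i * (e i).2.2 * (u j * (e j).2.2)⁻¹)) * t,
          Subgroup.mul_mem _ h6 ht, ?_⟩
        have e1 : (e i).2.2 * ((e j).2.2)⁻¹ *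
            ((((e i).2.2 * ((e j).2.2)⁻¹)⁻¹ * (u i * (e i).2.2 * (u j * (e j).2.2)⁻¹)) * t) =
            u i * (e i).2.2 * (u j * (e j).2.2)⁻¹ * t := by group
        rw [e1]
        exact ht'

end Pool.Agent.H90.LQ
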